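import Pool.Agent.T2h28.SQ.All

/-!
# Recognition of the intersection graphs of lattice squares of side `k` is NP-complete

For every fixed `k ≥ 1` the recognition problem of the class `S_k` (the intersection graphs of
closed axis-parallel squares of side `k` with corners in `ℤ²`; distinct vertices may have the same
square) is NP-complete.  This is Q1 for every `k`.

Proof of hardness (a logic engine of rigid bodies).  In the graph of a rectangle of lattice
points, at least `2 k + 1` wide and with at least `2 k + 1` rows, two points being adjacent iff
their distance in the maximum norm is at most `k`, the windows of `(k + 1)²` points have as images
windows (they are cliques, and the representation is injective on the rectangle as there are no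
twins), and the sizes of the intersections of windows show that steps between windows go to steps
and diagonal steps to diagonal steps; so every representation of the rectangle by lattice points
is given by an isometry of the plane.  A further point (a *pin*) protruding by one unit from a side
is also at its place, and a further rectangle whose neighbours of the pin are exactly the
`2 k + 1` central points of its bottom row is attached to the pin: its position is determined up
to the reflection in its own axis.  So all representations of the graph of the reduction are known
up to these reflections: a chain of wide rectangles (walls) and `N` rods, with two chains of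
bodies attached to the two sides of every rod, exchanged by the reflection of the rod (truth value
of a variable).  The bodies of a chain correspond to the clauses; a body whose literal is not in
the clause has a flag of width one on both sides, so that it needs room towards the rod above or
below; two such bodies facing each other, or a body facing a wall, are too close.  So a row of the
engine can be laid out iff it contains a body without flag.  Both sides of the engine together say
not-all-equal satisfiability, and one additional variable put into every clause makes it
satisfiability.

Membership in NP: the coordinates of a representation can be compressed to natural numbers at most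
`n (k + 1)`.

The parts of the proof were written by helper22 (BAS, DIR, FRA), helper25 (RED), helper28 (VBB),
helper41 (AFF, CRD, INJ, PLY, SQI, STP, WIN), helper45 (CMP, NPM), helper55 (EXT, NRM, VCC),
helper62 (PLC), helper78 (LOG, ROW, VER), helper85 (RIG, VCB) and helper91 (CHE, CHS).
-/

set_option autoImplicit false

namespace Pool.Agent.Results.MP_ae7730_lc.LatticeSquaresNPComplete

open Pool.Agent.NPC Pool.Agent.NPC.R671 Pool.Agent.T2h28.SQ

/-- The closed axis-parallel square of side `k` with lower left corner `p`. -/
def square (k : ℕ) (p : ℤ × ℤ) : Set (ℝ × ℝ) :=
  Set.Icc (p.1 : ℝ) ((p.1 : ℝ) + k) ×ˢ Set.Icc (p.2 : ℝ) ((p.2 : ℝ) + k)

/-- The class `S_k`: intersection graphs of closed axis-parallel squares of side `k` with corners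
in the integer lattice; distinct vertices may have the same square. -/
def InS (k : ℕ) {V : Type} (G : SimpleGraph V) : Prop :=
  ∃ c : V → ℤ × ℤ, ∀ u v, u ≠ v → (G.Adj u v ↔ (square k (c u) ∩ square k (c v)).Nonempty)

/-- The recognition problem of `S_k`: the yes-instances are the adjacency matrices (lists of rows)
of the graphs in `S_k`. -/
def Recognition (k : ℕ) (M : List (List Bool)) : Prop :=
  ∃ (n : ℕ) (G : SimpleGraph (Fin n)), adjMatrix G = M ∧ InS k G

/-- For every `k ≥ 1` the recognition problem of `S_k` is in NP and NP-hard; and for every language
in NP there is a polynomial-time computable function which maps every input to (the adjacency
matrix of) a graph, which is in `S_k` iff the input is in the language. -/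
theorem result : ∀ k : ℕ, 1 ≤ k → InNPP (Recognition k) ∧ NPHardP (Recognition k) ∧
    ∀ L : Set (List Bool), InNP L → ∃ f : List Bool → List Bool, PolyTime f ∧
      ∀ x, ∃ (n : ℕ) (G : SimpleGraph (Fin n)), f x = bits (adjMatrix G) ∧ (x ∈ L ↔ InS k G) :=
  fun k hk => fin_all s_ALL k hk

end Pool.Agent.Results.MP_ae7730_lc.LatticeSquaresNPComplete
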